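import Pool.Agent.N659.HB.Stm5

/-!
Project NP (helper659): gap for the first level (helper887).
-/

set_option autoImplicit false

namespace Pool.Agent.N887.NP

open MeasureTheory Filter Pool.Agent.W792.LL Pool.Agent.W792.WA Pool.Agent.N659.HB
open scoped Topology

theorem main : S_LEV1 → S_ATM → S_PSI → S_UUC → S_FIX → S_CX → S_GAPN := by
  intro hL hA hP hU hF hC p κ D ε hp1 hp2 hκ hκ1 hD hε
  obtain ⟨ψ, R, η, q, hψ, hR, hη, hη1, hq0, hq1, hηq, hhol, hmean, hint, hlev⟩ :=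
    hL p κ D ε hp1 hp2 hκ hκ1 hD hε
  refine ⟨ψ, R, η, hψ, hR, hη, hhol, hmean, hint, ?_⟩
  intro ν _ d K z ρ' _ hκν hρ' hKz hz s hs
  have hprob : IsProbabilityMeasure (lev ψ R) := (hA ψ R 1 ρ' hψ hR).1
  have hsupp := (hA ψ R 1 ρ' hψ hR).2.1 hρ'
  obtain ⟨_, _, h3, h4⟩ := hC
  obtain ⟨q', hq'0, hq'1, hq'⟩ := h3 (1 + R) D z.im hz
  have hcont := h4 d K z hz.le
  have hnorm : ∀ k, ‖((K k : ℝ) : ℂ) - z‖ ≤ D := by
    intro k
    have h5 : ‖K k‖ ≤ ‖K‖ := K.norm_coe_le_norm k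
    have h6 := norm_sub_le ((K k : ℝ) : ℂ) z
    rw [Complex.norm_real] at h6
    linarith
  have him : ∀ k, (((K k : ℝ) : ℂ) - z).im = -z.im := by
    intro k
    simp
  have hw : ∀ k, ∀ a ∈ Set.Icc (-(1 + R)) (1 + R), ‖wz K z k a‖ ≤ q' := by
    intro k a ha
    exact hq' _ a (hnorm k) (him k).le (abs_le.2 ha)
  have hvr : 0 < vr ν := lt_of_lt_of_le hκ hκν
  have hinv : ∀ s ∈ {s : C(UnitAddTorus (Fin d), ℂ) | ‖s‖ ≤ 1 - η},
      psi ν (UU ((lev ψ R).conv ρ') (wz K z) s) ∈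
        {s : C(UnitAddTorus (Fin d), ℂ) | ‖s‖ ≤ 1 - η} := by
    intro s hs
    have hs1 : ‖s‖ ≤ 1 - η := hs
    have hs2 : ‖s‖ ≤ 1 := by linarith
    have hs3 : q' * ‖s‖ < 1 := by
      have := mul_le_mul_of_nonneg_left hs2 hq'0
      linarith
    have hUU := hU d ((lev ψ R).conv ρ') (1 + R) q' (wz K z) s hsupp hcont hq'0 hq'1.le hw hs2 hs3
    have hUq : ‖UU ((lev ψ R).conv ρ') (wz K z) s‖ ≤ q := by
      rw [ContinuousMap.norm_le _ hq0]
      intro k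
      rw [hUU.1 k]
      exact hlev ρ' hρ' (((K k : ℝ) : ℂ) - z) (s k) (hnorm k) (by rw [him k]; linarith)
        ((s.norm_coe_le_norm k).trans hs1)
    have h7 := (hP ν d q _ _ hq0 hq1 hUq hUq).1
    show ‖psi ν (UU ((lev ψ R).conv ρ') (wz K z) s)‖ ≤ 1 - η
    rw [ContinuousMap.norm_le _ (by linarith)]
    intro k
    have h8 := (h7 k).2.2.2.2.2
    have h9 : (1 - q ^ 2) * κ ≤ (1 - q ^ 2) * vr ν := by
      refine mul_le_mul_of_nonneg_left hκν ?_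
      nlinarith
    rw [← pow_le_pow_iff_left₀ (norm_nonneg _) (by linarith) two_ne_zero]
    nlinarith [sq_nonneg η]
  refine (hF ν d ((lev ψ R).conv ρ') (1 + R) q' (wz K z) hvr hsupp hcont hq'0 hq'1 hw).2.2
    {s | ‖s‖ ≤ 1 - η} (isClosed_le continuous_norm continuous_const) ⟨0, ?_⟩ ?_ hinv s hs
  · show ‖(0 : C(UnitAddTorus (Fin d), ℂ))‖ ≤ 1 - η
    rw [norm_zero]
    linarith
  · intro s hs
    have hs1 : ‖s‖ ≤ 1 - η := hs
    linarith

end Pool.Agent.N887.NP
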